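import Pool.Agent.T2H70.BH.Fin

/-!
# The sharp Bohr radius for harmonic mappings with bounded dilatation ratio

For `f = h + conj g` with `h`, `g` analytic in the unit disc, `h 0 = g 0 = 0`, `h` bounded and
`|g'| ≤ k |h'|`, `k = (K - 1) / (K + 1)`, the largest `r` for which
`∑ (|a_n| + |b_n|) r^n ≤ ‖h‖_∞` holds for the whole class is
`r_K = (1 / 4) * sqrt (7 / 2 - 1 / (2 K ^ 2) + 5 / K)`, for every `K > 1`.

Plan of the proof. Put `r = r_K`, `v = 5 / 8 - 1 / (8 K)`, so that `r ^ 2 = 1 - 2 v ^ 2` and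
`(1 + k) (3 - 4 v) = 1`. With `a = |a_1|` and `β` the value at the origin of `|g' / (k h')|`:
* `∑ |a_n| r ^ n ≤ 3 - 4 v` by a weighted quadratic mean estimate (weight `r / a`);
* for `r ≥ 13 / 25` the same weight is used for `g`, with the Schwarz-Pick lemma for `g' / (k h')`,
  which yields a gain in the quadratic mean of `g`;
* for `r ≤ 13 / 25` the coefficients of `g' / (k h')` are bounded by `1 - β ^ 2`, and
  `∑ |b_n| r ^ n` is bounded through the convolution formula for the coefficients.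
-/

set_option autoImplicit false

open Metric
open Pool.Agent.T2H70.BH

namespace Pool.Agent.Results.MP_8fe0b8_an.SharpBohrRadius

theorem result : ∀ K : ℝ, 1 < K →
    (∀ h g : ℂ → ℂ, InClass K h g → ∀ r : ℝ, 0 ≤ r → r ≤ rK K →
      bohrSum h g r ≤ ENNReal.ofReal (supNorm h)) ∧
    (∀ r : ℝ, rK K < r → ∃ h g : ℂ → ℂ, InClass K h g ∧
      ENNReal.ofReal (supNorm h) < bohrSum h g r) := by
  intro K hK
  exact ⟨fun h g C r h0 hr => part_one hK C h0 hr, fun r hr => part_two hK hr⟩

end Pool.Agent.Results.MP_8fe0b8_an.SharpBohrRadius
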